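import Mathlib

set_option autoImplicit false

namespace H64R3.Kempe

def A : Fin 8 → Fin 8 → Bool := ![![false, true, false, true, true, true, false, true],
    ![true, false, false, true, true, true, true, false],
    ![false, false, false, true, true, true, true, true],
    ![true, true, true, false, true, true, true, true],
    ![true, true, true, true, false, true, true, true],
    ![true, true, true, true, true, false, false, false],
    ![false, true, true, true, true, false, false, true],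
    ![true, false, true, true, true, false, true, false]]

def X : Fin 8 → ℤ := ![0, -1, -2, -2, 2, 2, 1, 0]
def Y : Fin 8 → ℤ := ![0, 1, 3, -2, 0, 2, 3, -2]
def DX : Fin 8 → Fin 8 → ℤ := ![![0, -1, 0, -2, 2, 2, 0, 0],
    ![1, 0, 0, -1, -3, 3, 2, 0],
    ![0, 0, 0, 0, -2, -2, 3, 2],
    ![2, 1, 0, 0, -2, -2, -3, 2],
    ![-2, 3, 2, 2, 0, 0, -1, -2],
    ![-2, -3, 2, 2, 0, 0, 0, 0],
    ![0, -2, -3, 3, 1, 0, 0, -1],
    ![0, 0, -2, -2, 2, 0, 1, 0]]
def DY : Fin 8 → Fin 8 → ℤ := ![![0, 1, 0, -2, 0, 2, 0, -2],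
    ![-1, 0, 0, -3, -1, 1, 2, 0],
    ![0, 0, 0, 1, -3, -1, 0, 1],
    ![2, 3, -1, 0, 2, -2, -1, 0],
    ![0, 1, 3, -2, 0, 2, -3, -2],
    ![-2, -1, 1, 2, -2, 0, 0, 0],
    ![0, -2, 0, 1, 3, 0, 0, 1],
    ![2, 0, -1, 0, 2, 0, -1, 0]]

/-- the join of an edge with the triangular prism -/
def G : SimpleGraph (Fin 8) where
  Adj u v := A u v = true
  symm := ⟨by decide⟩
  loopless := ⟨by decide⟩

instance : DecidableRel G.Adj := fun u v => inferInstanceAs (Decidable (A u v = true))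

/-- crossing check over the integers -/
def okc (Dx Dy Fx Fy Wx Wy : ℤ) : Bool :=
  let det := Dx * Fy - Dy * Fx
  let a := Wx * Fy - Wy * Fx
  let b := Wx * Dy - Wy * Dx
  let q := Wx * Dx + Wy * Dy
  let r := q + (Fx * Dx + Fy * Dy)
  let L := Dx * Dx + Dy * Dy
  (decide (0 < det) && !(decide (0 < a) && decide (a < det) && decide (0 < b) && decide (b < det)))
  || (decide (det < 0) && !(decide (a < 0) && decide (det < a) && decide (b < 0) && decide (det < b)))
  || (decide (det = 0) && (decide (b ≠ 0) || (decide (q ≤ 0) && decide (r ≤ 0)) ||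
      (decide (L ≤ q) && decide (L ≤ r))))

theorem okc_sound (Dx Dy Fx Fy Wx Wy : ℤ) (h : okc Dx Dy Fx Fy Wx Wy = true)
    (hD : Dx ≠ 0 ∨ Dy ≠ 0)
    (s t : ℝ) (hs0 : 0 < s) (hs1 : s < 1) (ht0 : 0 < t) (ht1 : t < 1)
    (hx : (Wx : ℝ) = s * Dx - t * Fx) (hy : (Wy : ℝ) = s * Dy - t * Fy) : False := by
  have ha : ((Wx * Fy - Wy * Fx : ℤ) : ℝ) = s * ((Dx * Fy - Dy * Fx : ℤ) : ℝ) := by
    push_cast; rw [hx, hy]; ring
  have hb : ((Wx * Dy - Wy * Dx : ℤ) : ℝ) = t * ((Dx * Fy - Dy * Fx : ℤ) : ℝ) := by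
    push_cast; rw [hx, hy]; ring
  have hq : s * ((Dx * Dx + Dy * Dy : ℤ) : ℝ) =
      (1 - t) * ((Wx * Dx + Wy * Dy : ℤ) : ℝ) +
      t * ((Wx * Dx + Wy * Dy + (Fx * Dx + Fy * Dy) : ℤ) : ℝ) := by
    push_cast; rw [hx, hy]; ring
  have hL : 0 < Dx * Dx + Dy * Dy := by
    rcases hD with h | h
    · have := mul_self_pos.2 h
      nlinarith [mul_self_nonneg Dy]
    · have := mul_self_pos.2 h
      nlinarith [mul_self_nonneg Dx]
  have hL' : (0 : ℝ) < ((Dx * Dx + Dy * Dy : ℤ) : ℝ) := by exact_mod_cast hL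
  unfold okc at h
  simp only [Bool.or_eq_true, Bool.and_eq_true, Bool.not_eq_true', decide_eq_true_eq,
    Bool.and_eq_false_iff, decide_eq_false_iff_not] at h
  generalize Dx * Fy - Dy * Fx = det at *
  generalize Wx * Fy - Wy * Fx = a at *
  generalize Wx * Dy - Wy * Dx = b at *
  generalize Wx * Dx + Wy * Dy + (Fx * Dx + Fy * Dy) = r at *
  generalize Wx * Dx + Wy * Dy = q at *
  generalize Dx * Dx + Dy * Dy = L at *
  rcases h with (⟨hd, h⟩ | ⟨hd, h⟩) | ⟨hd, h⟩
  · have hd' : (0 : ℝ) < (det : ℝ) := by exact_mod_cast hd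
    have a0 : 0 < a := by
      have : (0 : ℝ) < (a : ℝ) := by rw [ha]; positivity
      exact_mod_cast this
    have a1 : a < det := by
      have : (a : ℝ) < (det : ℝ) := by rw [ha]; nlinarith
      exact_mod_cast this
    have b0 : 0 < b := by
      have : (0 : ℝ) < (b : ℝ) := by rw [hb]; positivity
      exact_mod_cast this
    have b1 : b < det := by
      have : (b : ℝ) < (det : ℝ) := by rw [hb]; nlinarith
      exact_mod_cast this
    tauto
  · have hd' : (det : ℝ) < 0 := by exact_mod_cast hd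
    have a0 : a < 0 := by
      have : (a : ℝ) < 0 := by rw [ha]; exact mul_neg_of_pos_of_neg hs0 hd'
      exact_mod_cast this
    have a1 : det < a := by
      have : (det : ℝ) < (a : ℝ) := by rw [ha]; nlinarith
      exact_mod_cast this
    have b0 : b < 0 := by
      have : (b : ℝ) < 0 := by rw [hb]; exact mul_neg_of_pos_of_neg ht0 hd'
      exact_mod_cast this
    have b1 : det < b := by
      have : (det : ℝ) < (b : ℝ) := by rw [hb]; nlinarith
      exact_mod_cast this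
    tauto
  · have hd' : (det : ℝ) = 0 := by exact_mod_cast hd
    have b0 : b = 0 := by
      have : (b : ℝ) = 0 := by rw [hb, hd']; ring
      exact_mod_cast this
    rcases h with (h | ⟨h1, h2⟩) | ⟨h1, h2⟩
    · exact h b0
    · have h1' : (q : ℝ) ≤ 0 := by exact_mod_cast h1
      have h2' : (r : ℝ) ≤ 0 := by exact_mod_cast h2
      nlinarith [mul_pos hs0 hL', mul_nonneg (sub_nonneg.2 ht1.le) (neg_nonneg.2 h1'),
        mul_nonneg ht0.le (neg_nonneg.2 h2')]
    · have h1' : (L : ℝ) ≤ (q : ℝ) := by exact_mod_cast h1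
      have h2' : (L : ℝ) ≤ (r : ℝ) := by exact_mod_cast h2
      nlinarith [mul_pos (sub_pos.2 hs1) hL', mul_nonneg (sub_nonneg.2 ht1.le) (sub_nonneg.2 h1'),
        mul_nonneg ht0.le (sub_nonneg.2 h2')]

/-- vertex avoidance check -/
def okv (Dx Dy Wx Wy : ℤ) : Bool :=
  decide (Wx * Dy - Wy * Dx ≠ 0) || decide (Wx * Dx + Wy * Dy ≤ 0) ||
    decide (Dx * Dx + Dy * Dy ≤ Wx * Dx + Wy * Dy)

theorem okv_sound (Dx Dy Wx Wy : ℤ) (h : okv Dx Dy Wx Wy = true)
    (hD : Dx ≠ 0 ∨ Dy ≠ 0)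
    (t : ℝ) (ht0 : 0 < t) (ht1 : t < 1)
    (hx : (Wx : ℝ) = t * Dx) (hy : (Wy : ℝ) = t * Dy) : False := by
  have hb : ((Wx * Dy - Wy * Dx : ℤ) : ℝ) = 0 := by
    push_cast; rw [hx, hy]; ring
  have hq : ((Wx * Dx + Wy * Dy : ℤ) : ℝ) = t * ((Dx * Dx + Dy * Dy : ℤ) : ℝ) := by
    push_cast; rw [hx, hy]; ring
  have hL : 0 < Dx * Dx + Dy * Dy := by
    rcases hD with h | h
    · have := mul_self_pos.2 h
      nlinarith [mul_self_nonneg Dy]
    · have := mul_self_pos.2 h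
      nlinarith [mul_self_nonneg Dx]
  have hL' : (0 : ℝ) < ((Dx * Dx + Dy * Dy : ℤ) : ℝ) := by exact_mod_cast hL
  unfold okv at h
  simp only [Bool.or_eq_true, decide_eq_true_eq] at h
  generalize Wx * Dy - Wy * Dx = b at *
  generalize Wx * Dx + Wy * Dy = q at *
  generalize Dx * Dx + Dy * Dy = L at *
  rcases h with (h | h) | h
  · exact h (by exact_mod_cast hb)
  · have h' : (q : ℝ) ≤ 0 := by exact_mod_cast h
    rw [hq] at h'
    nlinarith [mul_pos ht0 hL']
  · have h' : (L : ℝ) ≤ (q : ℝ) := by exact_mod_cast h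
    rw [hq] at h'
    nlinarith [mul_pos (sub_pos.2 ht1) hL']

def Z3 : List ℤ := [-1, 0, 1]

theorem chk_cross : ∀ u v x y : Fin 8, (A u v && A x y &&
    !((decide (u = x) && decide (v = y)) || (decide (u = y) && decide (v = x)))) = true →
    (Z3.all fun z => Z3.all fun w => okc (DX u v) (DY u v) (DX x y) (DY x y)
      (X x - X u + 6 * z) (Y x - Y u + 6 * w)) = true := by
  decide +kernel

theorem chk_vert : ∀ u v x : Fin 8, A u v = true →
    (Z3.all fun z => Z3.all fun w => okv (DX u v) (DY u v)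
      (X x - X u + 6 * z) (Y x - Y u + 6 * w)) = true := by
  decide +kernel

theorem chk_D : ∀ u v : Fin 8, A u v = true → (DX u v ≠ 0 ∨ DY u v ≠ 0) := by decide

theorem bX : ∀ u : Fin 8, -2 ≤ X u ∧ X u ≤ 3 := by decide
theorem bY : ∀ u : Fin 8, -2 ≤ Y u ∧ Y u ≤ 3 := by decide
theorem bDX : ∀ u v : Fin 8, -3 ≤ DX u v ∧ DX u v ≤ 3 := by decide
theorem bDY : ∀ u v : Fin 8, -3 ≤ DY u v ∧ DY u v ≤ 3 := by decide

theorem chk_end : ∀ u v : Fin 8, A u v = true →
    (X u + DX u v - X v) % 6 = 0 ∧ (Y u + DY u v - Y v) % 6 = 0 := by decide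

theorem chk_inj : ∀ u v : Fin 8, u ≠ v → ¬ ((X u - X v) % 6 = 0 ∧ (Y u - Y v) % 6 = 0) := by decide

end H64R3.Kempe
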