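import Pool.Agent.H64R3.Kempe1

set_option autoImplicit false

namespace H64R3.Kempe

theorem circ_eq (x y : ℝ) (h : ((x : ℝ) : AddCircle (1:ℝ)) = (y : AddCircle (1:ℝ))) :
    ∃ n : ℤ, x - y = n := by
  rw [QuotientAddGroup.eq_iff_sub_mem, AddSubgroup.mem_zmultiples_iff] at h
  obtain ⟨k, hk⟩ := h
  exact ⟨k, by simpa using hk.symm⟩

theorem circ_of (x y : ℝ) (n : ℤ) (h : x - y = n) :
    ((x : ℝ) : AddCircle (1:ℝ)) = (y : AddCircle (1:ℝ)) := by
  rw [QuotientAddGroup.eq_iff_sub_mem, AddSubgroup.mem_zmultiples_iff]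
  exact ⟨n, by simpa using h.symm⟩

/-- the covering map, with coordinates scaled by six -/
noncomputable def π (x y : ℝ) : AddCircle (1:ℝ) × AddCircle (1:ℝ) :=
  (((x / 6 : ℝ) : AddCircle (1:ℝ)), ((y / 6 : ℝ) : AddCircle (1:ℝ)))

theorem π_eq {x y x' y' : ℝ} (h : π x y = π x' y') :
    ∃ z w : ℤ, x = x' + 6 * z ∧ y = y' + 6 * w := by
  obtain ⟨h1, h2⟩ := Prod.ext_iff.1 h
  obtain ⟨z, hz⟩ := circ_eq _ _ h1
  obtain ⟨w, hw⟩ := circ_eq _ _ h2
  exact ⟨z, w, by linarith, by linarith⟩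

theorem π_of {x y x' y' : ℝ} (z w : ℤ) (h1 : x = x' + 6 * z) (h2 : y = y' + 6 * w) :
    π x y = π x' y' := by
  apply Prod.ext
  · exact circ_of _ _ z (by simp only [h1]; ring)
  · exact circ_of _ _ w (by simp only [h2]; ring)

theorem π_cont {α : Type} [TopologicalSpace α] (f g : α → ℝ) (hf : Continuous f)
    (hg : Continuous g) : Continuous fun a => π (f a) (g a) := by
  refine Continuous.prodMk ?_ ?_
  · exact (AddCircle.continuous_mk' (1:ℝ)).comp (hf.div_const 6)
  · exact (AddCircle.continuous_mk' (1:ℝ)).comp (hg.div_const 6)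

noncomputable def p (u : Fin 8) : AddCircle (1:ℝ) × AddCircle (1:ℝ) := π (X u) (Y u)

noncomputable def γ (u v : Fin 8) : C(unitInterval, AddCircle (1:ℝ) × AddCircle (1:ℝ)) where
  toFun t := π (X u + (t : ℝ) * DX u v) (Y u + (t : ℝ) * DY u v)
  continuous_toFun := by
    apply π_cont
    · fun_prop
    · fun_prop

theorem γ_apply (u v : Fin 8) (t : unitInterval) :
    γ u v t = π (X u + (t : ℝ) * DX u v) (Y u + (t : ℝ) * DY u v) := rfl

theorem small_int (z : ℤ) (h1 : -12 < 6 * (z : ℝ)) (h2 : 6 * (z : ℝ) < 12) : z ∈ Z3 := by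
  have a : (-2 : ℤ) < z := by
    have : (-2 : ℝ) < (z : ℝ) := by linarith
    exact_mod_cast this
  have b : z < (2 : ℤ) := by
    have : (z : ℝ) < 2 := by linarith
    exact_mod_cast this
  have : z = -1 ∨ z = 0 ∨ z = 1 := by omega
  rcases this with rfl | rfl | rfl <;> simp [Z3]

theorem prod_bound (t : ℝ) (ht0 : 0 ≤ t) (ht1 : t ≤ 1) (d : ℤ) (h1 : -3 ≤ d) (h2 : d ≤ 3) :
    -3 ≤ t * (d : ℝ) ∧ t * (d : ℝ) ≤ 3 := by
  have h1' : (-3 : ℝ) ≤ (d : ℝ) := by exact_mod_cast h1
  have h2' : (d : ℝ) ≤ 3 := by exact_mod_cast h2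
  constructor <;> nlinarith

theorem p_inj : Function.Injective p := by
  intro u v h
  by_contra hne
  obtain ⟨z, w, h1, h2⟩ := π_eq h
  have h1' : X u = X v + 6 * z := by exact_mod_cast h1
  have h2' : Y u = Y v + 6 * w := by exact_mod_cast h2
  exact chk_inj u v hne ⟨by omega, by omega⟩

theorem γ_zero (u v : Fin 8) : γ u v 0 = p u := by
  rw [γ_apply, p]
  simp

theorem γ_one (u v : Fin 8) (h : A u v = true) : γ u v 1 = p v := by
  rw [γ_apply, p]
  obtain ⟨h1, h2⟩ := chk_end u v h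
  obtain ⟨z, hz⟩ := Int.dvd_of_emod_eq_zero h1
  obtain ⟨w, hw⟩ := Int.dvd_of_emod_eq_zero h2
  refine π_of z w ?_ ?_
  · have : X u + DX u v = X v + 6 * z := by omega
    have : ((X u + DX u v : ℤ) : ℝ) = ((X v + 6 * z : ℤ) : ℝ) := by rw [this]
    push_cast at this
    simpa using this
  · have : Y u + DY u v = Y v + 6 * w := by omega
    have : ((Y u + DY u v : ℤ) : ℝ) = ((Y v + 6 * w : ℤ) : ℝ) := by rw [this]
    push_cast at this
    simpa using this

theorem γ_inj (u v : Fin 8) (h : A u v = true) : Function.Injective (γ u v) := by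
  intro s t hst
  rw [γ_apply, γ_apply] at hst
  obtain ⟨z, w, h1, h2⟩ := π_eq hst
  have hs0 := s.2.1
  have hs1 := s.2.2
  have ht0 := t.2.1
  have ht1 := t.2.2
  have key : ∀ (d : ℤ) (z : ℤ), -3 ≤ d → d ≤ 3 → ((s : ℝ) - t) * d = 6 * z → z = 0 := by
    intro d z hd1 hd2 he
    obtain ⟨b1, b2⟩ := prod_bound s hs0 hs1 d hd1 hd2
    obtain ⟨b3, b4⟩ := prod_bound t ht0 ht1 d hd1 hd2
    -- |(s-t) d| ≤ 3
    have hd1' : (-3 : ℝ) ≤ (d : ℝ) := by exact_mod_cast hd1
    have hd2' : (d : ℝ) ≤ 3 := by exact_mod_cast hd2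
    have u1 : ((s : ℝ) - t) * d ≤ 3 := by
      rcases le_total (s : ℝ) t with h | h
      · nlinarith
      · nlinarith
    have u2 : -3 ≤ ((s : ℝ) - t) * d := by
      rcases le_total (s : ℝ) t with h | h
      · nlinarith
      · nlinarith
    have a : (-1 : ℤ) < z := by
      have : (-1 : ℝ) < (z : ℝ) := by linarith
      exact_mod_cast this
    have b : z < (1 : ℤ) := by
      have : (z : ℝ) < 1 := by linarith
      exact_mod_cast this
    omega
  have hz := key (DX u v) z (bDX u v).1 (bDX u v).2 (by linarith)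
  have hw := key (DY u v) w (bDY u v).1 (bDY u v).2 (by linarith)
  rw [hz] at h1
  rw [hw] at h2
  push_cast at h1 h2
  have e1 : ((s : ℝ) - t) * DX u v = 0 := by linarith
  have e2 : ((s : ℝ) - t) * DY u v = 0 := by linarith
  have hst' : (s : ℝ) - t = 0 := by
    rcases chk_D u v h with hd | hd
    · rcases mul_eq_zero.1 e1 with h | h
      · exact h
      · exact absurd (by exact_mod_cast h) hd
    · rcases mul_eq_zero.1 e2 with h | h
      · exact h
      · exact absurd (by exact_mod_cast h) hd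
  exact Subtype.ext (by linarith)

theorem γ_vert (u v x : Fin 8) (h : A u v = true) (t : unitInterval) (ht0 : 0 < (t : ℝ))
    (ht1 : (t : ℝ) < 1) : γ u v t ≠ p x := by
  intro he
  rw [γ_apply, p] at he
  obtain ⟨z, w, h1, h2⟩ := π_eq he
  obtain ⟨b1, b2⟩ := prod_bound t ht0.le ht1.le _ (bDX u v).1 (bDX u v).2
  obtain ⟨b3, b4⟩ := prod_bound t ht0.le ht1.le _ (bDY u v).1 (bDY u v).2
  have c1 : (-2 : ℝ) ≤ X u := by exact_mod_cast (bX u).1
  have c2 : (X u : ℝ) ≤ 3 := by exact_mod_cast (bX u).2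
  have c3 : (-2 : ℝ) ≤ X x := by exact_mod_cast (bX x).1
  have c4 : (X x : ℝ) ≤ 3 := by exact_mod_cast (bX x).2
  have c5 : (-2 : ℝ) ≤ Y u := by exact_mod_cast (bY u).1
  have c6 : (Y u : ℝ) ≤ 3 := by exact_mod_cast (bY u).2
  have c7 : (-2 : ℝ) ≤ Y x := by exact_mod_cast (bY x).1
  have c8 : (Y x : ℝ) ≤ 3 := by exact_mod_cast (bY x).2
  have hz : z ∈ Z3 := small_int z (by linarith) (by linarith)
  have hw : w ∈ Z3 := small_int w (by linarith) (by linarith)
  have hc := chk_vert u v x h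
  rw [List.all_eq_true] at hc
  have hc2 := hc z hz
  rw [List.all_eq_true] at hc2
  refine okv_sound _ _ _ _ (hc2 w hw) (chk_D u v h) t ht0 ht1 ?_ ?_
  · push_cast; linarith
  · push_cast; linarith

theorem γ_cross (u v x y : Fin 8) (h : A u v = true) (h' : A x y = true)
    (hne : ¬ ((u = x ∧ v = y) ∨ (u = y ∧ v = x))) (s t : unitInterval) (hs0 : 0 < (s : ℝ))
    (hs1 : (s : ℝ) < 1) (ht0 : 0 < (t : ℝ)) (ht1 : (t : ℝ) < 1) : γ u v s ≠ γ x y t := by
  intro he
  rw [γ_apply, γ_apply] at he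
  obtain ⟨z, w, h1, h2⟩ := π_eq he
  obtain ⟨b1, b2⟩ := prod_bound s hs0.le hs1.le _ (bDX u v).1 (bDX u v).2
  obtain ⟨b3, b4⟩ := prod_bound s hs0.le hs1.le _ (bDY u v).1 (bDY u v).2
  obtain ⟨b5, b6⟩ := prod_bound t ht0.le ht1.le _ (bDX x y).1 (bDX x y).2
  obtain ⟨b7, b8⟩ := prod_bound t ht0.le ht1.le _ (bDY x y).1 (bDY x y).2
  have c1 : (-2 : ℝ) ≤ X u := by exact_mod_cast (bX u).1
  have c2 : (X u : ℝ) ≤ 3 := by exact_mod_cast (bX u).2
  have c3 : (-2 : ℝ) ≤ X x := by exact_mod_cast (bX x).1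
  have c4 : (X x : ℝ) ≤ 3 := by exact_mod_cast (bX x).2
  have c5 : (-2 : ℝ) ≤ Y u := by exact_mod_cast (bY u).1
  have c6 : (Y u : ℝ) ≤ 3 := by exact_mod_cast (bY u).2
  have c7 : (-2 : ℝ) ≤ Y x := by exact_mod_cast (bY x).1
  have c8 : (Y x : ℝ) ≤ 3 := by exact_mod_cast (bY x).2
  have hz : z ∈ Z3 := small_int z (by linarith) (by linarith)
  have hw : w ∈ Z3 := small_int w (by linarith) (by linarith)
  have hc := chk_cross u v x y (by
    simp only [Bool.and_eq_true, h, h', true_and, Bool.not_eq_true', Bool.or_eq_false_iff,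
      Bool.and_eq_false_iff, decide_eq_false_iff_not]
    tauto)
  rw [List.all_eq_true] at hc
  have hc2 := hc z hz
  rw [List.all_eq_true] at hc2
  refine okc_sound _ _ _ _ _ _ (hc2 w hw) (chk_D u v h) s t hs0 hs1 ht0 ht1 ?_ ?_
  · push_cast; linarith
  · push_cast; linarith

/-! ### the two colourings -/

def c1 : Fin 8 → Fin 5 := ![0, 1, 0, 2, 3, 4, 4, 1]
def c2 : Fin 8 → Fin 5 := ![0, 1, 1, 2, 3, 4, 0, 4]

theorem c1_valid : ∀ u v, A u v = true → c1 u ≠ c1 v := by decide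
theorem c2_valid : ∀ u v, A u v = true → c2 u ≠ c2 v := by decide

/-- any two vertices of a two-coloured part are joined by a path of length at most three -/
theorem conn : ∀ p q : Fin 5, p ≠ q → ∀ x v : Fin 8, (c1 x = p ∨ c1 x = q) →
    (c1 v = p ∨ c1 v = q) → x = v ∨ A x v = true ∨
    (∃ y, (c1 y = p ∨ c1 y = q) ∧ A x y = true ∧ A y v = true) ∨
    (∃ y z, (c1 y = p ∨ c1 y = q) ∧ (c1 z = p ∨ c1 z = q) ∧ A x y = true ∧ A y z = true ∧
      A z v = true) := by
  decide

/-- the recolouring relation of the statement -/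
def Step (c c' : Fin 8 → Fin 5) : Prop :=
  ∃ (a b : Fin 5) (x : Fin 8), ∀ v : Fin 8,
    ((SimpleGraph.fromRel (fun y z => G.Adj y z ∧ (c y = a ∨ c y = b) ∧
        (c z = a ∨ c z = b))).Reachable x v → c' v = Equiv.swap a b (c v)) ∧
    (¬ (SimpleGraph.fromRel (fun y z => G.Adj y z ∧ (c y = a ∨ c y = b) ∧
        (c z = a ∨ c z = b))).Reachable x v → c' v = c v)

theorem step_inv (c c' : Fin 8 → Fin 5) (h : Step c c')
    (hc : ∃ σ : Equiv.Perm (Fin 5), ∀ v, c v = σ (c1 v)) :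
    ∃ σ : Equiv.Perm (Fin 5), ∀ v, c' v = σ (c1 v) := by
  classical
  obtain ⟨a, b, x, h⟩ := h
  obtain ⟨σ, hσ⟩ := hc
  set H := SimpleGraph.fromRel (fun y z => G.Adj y z ∧ (c y = a ∨ c y = b) ∧
        (c z = a ∨ c z = b)) with hH
  have hadj : ∀ y z, A y z = true → (c y = a ∨ c y = b) → (c z = a ∨ c z = b) → H.Adj y z := by
    intro y z hyz hy hz
    rw [hH, SimpleGraph.fromRel_adj]
    refine ⟨?_, Or.inl ⟨hyz, hy, hz⟩⟩
    rintro rfl
    exact G.loopless.irrefl y hyz
  by_cases hab : a = b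
  · subst hab
    refine ⟨σ, fun v => ?_⟩
    by_cases hr : H.Reachable x v
    · rw [(h v).1 hr, Equiv.swap_self, Equiv.refl_apply, hσ]
    · rw [(h v).2 hr, hσ]
  by_cases hx : c x = a ∨ c x = b
  · refine ⟨Equiv.trans σ (Equiv.swap a b), fun v => ?_⟩
    rw [Equiv.trans_apply, ← hσ]
    by_cases hr : H.Reachable x v
    · exact (h v).1 hr
    · rw [(h v).2 hr]
      by_cases hv : c v = a ∨ c v = b
      · exfalso
        apply hr
        have cc : ∀ w, (c w = a ∨ c w = b) ↔ (c1 w = σ.symm a ∨ c1 w = σ.symm b) := by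
          intro w
          rw [hσ w]
          constructor
          · rintro (h | h)
            · left; rw [← h]; simp
            · right; rw [← h]; simp
          · rintro (h | h)
            · left; rw [h]; simp
            · right; rw [h]; simp
        have hne : σ.symm a ≠ σ.symm b := fun h => hab (σ.symm.injective h)
        rcases conn _ _ hne x v ((cc x).1 hx) ((cc v).1 hv) with h | h | ⟨y, hy, h1, h2⟩ |
          ⟨y, z, hy, hz, h1, h2, h3⟩
        · rw [h]
        · exact (hadj x v h hx hv).reachable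
        · exact (hadj x y h1 hx ((cc y).2 hy)).reachable.trans
            (hadj y v h2 ((cc y).2 hy) hv).reachable
        · exact ((hadj x y h1 hx ((cc y).2 hy)).reachable.trans
            (hadj y z h2 ((cc y).2 hy) ((cc z).2 hz)).reachable).trans
            (hadj z v h3 ((cc z).2 hz) hv).reachable
      · push Not at hv
        exact (Equiv.swap_apply_of_ne_of_ne hv.1 hv.2).symm
  · -- x is isolated
    refine ⟨σ, fun v => ?_⟩
    rw [← hσ]
    by_cases hr : H.Reachable x v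
    · rw [(h v).1 hr]
      have hxv : x = v := by
        obtain ⟨w⟩ := hr
        cases w with
        | nil => rfl
        | cons hadj' _ =>
          exfalso
          rw [hH, SimpleGraph.fromRel_adj] at hadj'
          rcases hadj'.2 with ⟨_, h1, _⟩ | ⟨_, _, h1⟩
          · exact hx h1
          · exact hx h1
      subst hxv
      push Not at hx
      exact Equiv.swap_apply_of_ne_of_ne hx.1 hx.2
    · exact (h v).2 hr

theorem not_reach : ¬ Relation.ReflTransGen Step c1 c2 := by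
  intro h
  have key : ∀ c, Relation.ReflTransGen Step c1 c →
      ∃ σ : Equiv.Perm (Fin 5), ∀ v, c v = σ (c1 v) := by
    intro c hc
    induction hc with
    | refl => exact ⟨Equiv.refl _, fun v => rfl⟩
    | tail _ hs ih => exact step_inv _ _ hs ih
  obtain ⟨σ, hσ⟩ := key c2 h
  have h0 := hσ 0
  have h2 := hσ 2
  have e : c1 0 = c1 2 := by decide
  rw [e, ← h2] at h0
  exact absurd h0 (by decide)

end H64R3.Kempe
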