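import Mathlib

set_option autoImplicit false

namespace H64R3.Psi

/-- a complete (not necessarily proper) partition into five classes -/
def Comp5 {V : Type} (G : SimpleGraph V) : Prop :=
  ∃ f : V → Fin 5, ∀ i j : Fin 5, i < j → ∃ u v, G.Adj u v ∧ f u = i ∧ f v = j

structure Setup {V : Type} (G : SimpleGraph V) (I : Set V) (v : V) : Prop where
  tf : ∀ a b c, G.Adj a b → G.Adj b c → ¬ G.Adj a c
  ind : ∀ a ∈ I, ∀ b ∈ I, ¬ G.Adj a b
  vI : v ∉ I
  nv : ∀ u, G.Adj v u → u ∈ I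
  dom : ∀ u, u ∉ I → ∃ s ∈ I, G.Adj u s

theorem split {V : Type} {G : SimpleGraph V} {I : Set V} {v : V} (S : Setup G I v)
    (κ : V → Fin 3) (χ : V → Bool)
    (h1 : ∀ i j : Fin 3, i < j → ∃ a b, a ∉ I ∧ b ∉ I ∧ a ≠ v ∧ b ≠ v ∧ κ a = i ∧ κ b = j ∧
      G.Adj a b)
    (h2 : ∀ (i : Fin 3) (β : Bool), ∃ u s, u ∉ I ∧ u ≠ v ∧ κ u = i ∧ s ∈ I ∧ G.Adj u s ∧ χ s = β) :
    Comp5 G := by
  classical
  obtain ⟨s0, hs0, hvs0⟩ := S.dom v S.vI
  refine ⟨fun u => if u ∈ I then (if χ u then 3 else 4) else if u = v then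
    (if χ s0 then 4 else 3) else (κ u).castLE (by norm_num), ?_⟩
  have e1 : ∀ u, u ∉ I → u ≠ v → ∀ i : Fin 3, κ u = i → (if u ∈ I then (if χ u then (3 : Fin 5) else 4)
      else if u = v then (if χ s0 then 4 else 3) else (κ u).castLE (by norm_num)) =
      i.castLE (by norm_num) := by
    intro u hu hv i hi
    rw [if_neg hu, if_neg hv, hi]
  have e2 : ∀ s, s ∈ I → χ s = true → (if s ∈ I then (if χ s then (3 : Fin 5) else 4)
      else if s = v then (if χ s0 then 4 else 3) else (κ s).castLE (by norm_num)) = 3 := by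
    intro s hs hx
    rw [if_pos hs, if_pos hx]
  have e3 : ∀ s, s ∈ I → χ s = false → (if s ∈ I then (if χ s then (3 : Fin 5) else 4)
      else if s = v then (if χ s0 then 4 else 3) else (κ s).castLE (by norm_num)) = 4 := by
    intro s hs hx
    rw [if_pos hs, if_neg (by simp [hx])]
  intro i j hij
  have key : (∃ i' j' : Fin 3, i' < j' ∧ i = i'.castLE (by norm_num) ∧ j = j'.castLE (by norm_num)) ∨
      (∃ i' : Fin 3, i = i'.castLE (by norm_num) ∧ j = 3) ∨
      (∃ i' : Fin 3, i = i'.castLE (by norm_num) ∧ j = 4) ∨ (i = 3 ∧ j = 4) := by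
    revert hij
    revert i j
    decide
  rcases key with ⟨i', j', h, rfl, rfl⟩ | ⟨i', rfl, rfl⟩ | ⟨i', rfl, rfl⟩ | ⟨rfl, rfl⟩
  · obtain ⟨a, b, ha, hb, hav, hbv, hka, hkb, hab⟩ := h1 i' j' h
    exact ⟨a, b, hab, e1 a ha hav _ hka, e1 b hb hbv _ hkb⟩
  · obtain ⟨u, s, hu, huv, hk, hs, hus, hx⟩ := h2 i' true
    exact ⟨u, s, hus, e1 u hu huv _ hk, e2 s hs hx⟩
  · obtain ⟨u, s, hu, huv, hk, hs, hus, hx⟩ := h2 i' false
    exact ⟨u, s, hus, e1 u hu huv _ hk, e3 s hs hx⟩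
  · by_cases hx : χ s0 = true
    · refine ⟨s0, v, hvs0.symm, e2 s0 hs0 hx, ?_⟩
      simp [S.vI, hx]
    · refine ⟨v, s0, hvs0, ?_, e3 s0 hs0 (by simpa using hx)⟩
      simp [S.vI, hx]

/-- version with a letter function -/
theorem split' {V : Type} {G : SimpleGraph V} {I : Set V} {v : V} (S : Setup G I v)
    (κ : V → Fin 3) (χ : V → Bool)
    (h1 : ∀ i j : Fin 3, i < j → ∃ a b, a ∉ I ∧ b ∉ I ∧ κ a = i ∧ κ b = j ∧
      G.Adj a b)
    (h2 : ∀ (i : Fin 3), ∃ u s u' s', u ∉ I ∧ u ≠ v ∧ κ u = i ∧ s ∈ I ∧ G.Adj u s ∧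
      u' ∉ I ∧ u' ≠ v ∧ κ u' = i ∧ s' ∈ I ∧ G.Adj u' s' ∧ χ s ≠ χ s') :
    Comp5 G := by
  refine split S κ χ ?_ ?_
  · intro i j hij
    obtain ⟨a, b, ha, hb, hka, hkb, hab⟩ := h1 i j hij
    refine ⟨a, b, ha, hb, ?_, ?_, hka, hkb, hab⟩
    · rintro rfl
      exact hb (S.nv _ hab)
    · rintro rfl
      exact ha (S.nv _ hab.symm)
  · intro i β
    obtain ⟨u, s, u', s', hu, huv, hk, hs, hus, hu', huv', hk', hs', hus', hne⟩ := h2 i
    by_cases h : χ s = β
    · exact ⟨u, s, hu, huv, hk, hs, hus, h⟩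
    · refine ⟨u', s', hu', huv', hk', hs', hus', ?_⟩
      revert h hne
      cases χ s <;> cases χ s' <;> cases β <;> simp

def OddQ {V : Type} (F : SimpleGraph V) (m : ℕ) : Prop :=
  Odd m ∧ ∃ w : ℕ → V, w m = w 0 ∧ ∀ t < m, F.Adj (w t) (w (t + 1))

theorem OddQ_exists {V : Type} (F : SimpleGraph V) (h : ¬ F.Colorable 2) : ∃ m, OddQ F m := by
  rw [SimpleGraph.two_colorable_iff_forall_loop_even] at h
  push Not at h
  obtain ⟨u, p, hp⟩ := h
  refine ⟨p.length, by simpa using hp, fun t => p.getVert t, ?_, ?_⟩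
  · simp
  · intro t ht
    exact p.adj_getVert_succ ht

theorem OddQ_inj {V : Type} (F : SimpleGraph V) (k : ℕ) (hmin : ∀ m < k, ¬ OddQ F m)
    (hk : Odd k) (w : ℕ → V) (hw0 : w k = w 0) (hw : ∀ t < k, F.Adj (w t) (w (t + 1)))
    (s t : ℕ) (hst : s < t) (ht : t < k) : w s ≠ w t := by
  intro he
  rcases Nat.even_or_odd (t - s) with hpar | hpar
  · refine hmin (k - (t - s)) (by omega) ⟨?_, fun r => if r ≤ s then w r else w (r + (t - s)),
      ?_, ?_⟩
    · exact Nat.Odd.sub_even (by omega) hk hpar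
    · simp only [if_neg (show ¬ (k - (t - s) ≤ s) by omega), if_pos (Nat.zero_le s)]
      rw [show k - (t - s) + (t - s) = k by omega, hw0]
    · intro r hr
      rcases lt_trichotomy r s with h | h | h
      · simp only [if_pos (show r ≤ s by omega), if_pos (show r + 1 ≤ s by omega)]
        exact hw r (by omega)
      · subst h
        simp only [if_pos (le_refl r), if_neg (show ¬ (r + 1 ≤ r) by omega)]
        rw [he, show r + 1 + (t - r) = t + 1 by omega]
        exact hw t ht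
      · simp only [if_neg (show ¬ (r ≤ s) by omega), if_neg (show ¬ (r + 1 ≤ s) by omega)]
        rw [show r + 1 + (t - s) = r + (t - s) + 1 by omega]
        exact hw _ (by omega)
  · refine hmin (t - s) (by omega) ⟨hpar, fun r => w (s + r), ?_, ?_⟩
    · simp only
      rw [show s + (t - s) = t by omega, ← he, Nat.add_zero]
    · intro r hr
      exact hw (s + r) (by omega)

/-- A non-bipartite triangle-free graph contains an odd cycle of length at least five. -/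
theorem oddCycle {V : Type} (F : SimpleGraph V) (h : ¬ F.Colorable 2)
    (tf : ∀ a b c, F.Adj a b → F.Adj b c → ¬ F.Adj a c) :
    ∃ (k : ℕ) (w : ℕ → V), (k = 5 ∨ 7 ≤ k) ∧ w k = w 0 ∧ (∀ t < k, F.Adj (w t) (w (t + 1))) ∧
      ∀ s t, s < t → t < k → w s ≠ w t := by
  classical
  have hex := OddQ_exists F h
  set k := Nat.find hex with hkdef
  obtain ⟨hk, w, hw0, hw⟩ := Nat.find_spec hex
  rw [← hkdef] at hk hw0 hw
  have hmin : ∀ m < k, ¬ OddQ F m := fun m hm => Nat.find_min hex hm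
  have hk0 : 0 < k := hk.pos
  have hk1 : k ≠ 1 := by
    intro h
    have := hw 0 (by omega)
    rw [h] at hw0
    rw [zero_add, hw0] at this
    exact F.loopless.irrefl _ this
  have hk3 : k ≠ 3 := by
    intro h
    have a0 := hw 0 (by omega)
    have a1 := hw 1 (by omega)
    have a2 := hw 2 (by omega)
    rw [h] at hw0
    norm_num at a0 a1 a2
    rw [hw0] at a2
    exact tf _ _ _ a0 a1 a2.symm
  refine ⟨k, w, ?_, hw0, hw, fun s t hst ht => OddQ_inj F k hmin hk w hw0 hw s t hst ht⟩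
  obtain ⟨r, hr⟩ := hk
  omega

end H64R3.Psi
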