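import Mathlib

set_option autoImplicit false

namespace H64R3.Psi

/-- restricted growth pattern of a tuple -/
theorem pattern {α : Type} {n : ℕ} (x : Fin n → α) :
    ∃ r : Fin n → ℕ, (∀ i, r i ≤ i) ∧ ∀ i j, x i = x j ↔ r i = r j := by
  classical
  have hne : ∀ i, (Finset.univ.filter (fun j : Fin n => x j = x i)).Nonempty :=
    fun i => ⟨i, by simp⟩
  refine ⟨fun i => ((Finset.univ.filter (fun j : Fin n => x j = x i)).min' (hne i) : Fin n),
    ?_, ?_⟩
  · intro i
    have := Finset.min'_le (Finset.univ.filter (fun j : Fin n => x j = x i)) i (by simp)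
    exact_mod_cast this
  · intro i j
    constructor
    · intro h
      simp only [h]
    · intro h
      have h1 := Finset.min'_mem _ (hne i)
      have h2 := Finset.min'_mem _ (hne j)
      simp only [Finset.mem_filter, Finset.mem_univ, true_and] at h1 h2
      rw [← h1, ← h2]
      congr 1
      exact Fin.ext h

/-- the three pairs can be separated by a set with at most three letters -/
def Sep {α : Type} (a a' b b' c c' : α) : Prop :=
  ∃ χ : α → Bool, χ a ≠ χ a' ∧ χ b ≠ χ b' ∧ χ c ≠ χ c'

def sepB (a a' b b' c c' : ℕ) : Bool :=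
  let f := fun (p q r x : ℕ) => (x == p || x == q || x == r)
  let g := fun (p q r : ℕ) => (f p q r a != f p q r a') && (f p q r b != f p q r b') &&
    (f p q r c != f p q r c')
  g a b c || g a b c' || g a b' c || g a b' c'

theorem sep_of_sepB {α : Type} {n : ℕ} (x : Fin n → α) (r : Fin n → ℕ)
    (hr : ∀ i j, x i = x j ↔ r i = r j) (i1 i2 i3 i4 i5 i6 : Fin n)
    (h : sepB (r i1) (r i2) (r i3) (r i4) (r i5) (r i6) = true) :
    Sep (x i1) (x i2) (x i3) (x i4) (x i5) (x i6) := by
  classical
  have key : ∀ p q s : Fin n,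
      ((fun (p q s x : ℕ) => (x == p || x == q || x == s)) (r p) (r q) (r s) (r i1) !=
        (fun (p q s x : ℕ) => (x == p || x == q || x == s)) (r p) (r q) (r s) (r i2)) = true →
      ((fun (p q s x : ℕ) => (x == p || x == q || x == s)) (r p) (r q) (r s) (r i3) !=
        (fun (p q s x : ℕ) => (x == p || x == q || x == s)) (r p) (r q) (r s) (r i4)) = true →
      ((fun (p q s x : ℕ) => (x == p || x == q || x == s)) (r p) (r q) (r s) (r i5) !=
        (fun (p q s x : ℕ) => (x == p || x == q || x == s)) (r p) (r q) (r s) (r i6)) = true →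
      Sep (x i1) (x i2) (x i3) (x i4) (x i5) (x i6) := by
    intro p q s h1 h2 h3
    have e : ∀ i, (decide (x i = x p ∨ x i = x q ∨ x i = x s)) =
        (r i == r p || r i == r q || r i == r s) := by
      intro i
      rw [Bool.eq_iff_iff]
      simp [hr, or_assoc]
    refine ⟨fun y => decide (y = x p ∨ y = x q ∨ y = x s), ?_, ?_, ?_⟩
    · beta_reduce; rw [e, e]; simpa using h1
    · beta_reduce; rw [e, e]; simpa using h2
    · beta_reduce; rw [e, e]; simpa using h3
  unfold sepB at h
  simp only [Bool.or_eq_true, Bool.and_eq_true] at h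
  rcases h with ((h | h) | h) | h
  · exact key _ _ _ h.1.1 h.1.2 h.2
  · exact key _ _ _ h.1.1 h.1.2 h.2
  · exact key _ _ _ h.1.1 h.1.2 h.2
  · exact key _ _ _ h.1.1 h.1.2 h.2

/-- cyclic letter pattern on a five-cycle plus one extra letter `f` -/
def good5 (a b c d e f : ℕ) : Bool :=
  -- letters s0..s4 = a b c d e
  sepB b c d e a f || sepB c d e a b f || sepB d e a b c f || sepB e a b c d f || sepB a b c d e f

def exc5 (a b c d e f : ℕ) : Bool :=
  (a == c && b == d && e == f) || (b == d && c == e && a == f) || (c == e && d == a && b == f) ||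
  (d == a && e == b && c == f) || (e == b && a == c && d == f)

theorem fin5 : ∀ b : Fin 2, ∀ c : Fin 3, ∀ d : Fin 4, ∀ e : Fin 5, ∀ f : Fin 6,
    (0 != b.val && b.val != c.val && c.val != d.val && d.val != e.val && e.val != 0) = true →
    (good5 0 b c d e f || exc5 0 b c d e f) = true := by
  decide +kernel

/-- seven consecutive letters: either separated with the two first arcs, or three equal letters -/
def good7 (a b c d e f g : ℕ) : Bool :=
  sepB a b c d e f || sepB a b c d f g || (b == e && b == g) || (c == e && c == g) ||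
  (a == e && a == g)

theorem fin7 : ∀ b : Fin 2, ∀ c : Fin 3, ∀ d : Fin 4, ∀ e : Fin 5, ∀ f : Fin 6, ∀ g : Fin 7,
    (0 != b.val && b.val != c.val && c.val != d.val && d.val != e.val && e.val != f.val &&
      f.val != g.val) = true →
    (good7 0 b c d e f g) = true := by
  decide +kernel

end H64R3.Psi
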