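import Pool.Agent.H64R3.Psi1
import Pool.Agent.H64R3.Psi2

set_option autoImplicit false

namespace H64R3.Psi

/-- long odd cycles -/
theorem long_case {V : Type} {G : SimpleGraph V} {I : Set V} {v : V} (S : Setup G I v)
    (t : V → V) (ht : ∀ u, u ∉ I → t u ∈ I ∧ G.Adj u (t u))
    (k : ℕ) (hk : 7 ≤ k) (w : ℕ → V) (hw0 : w k = w 0) (hwI : ∀ i, i < k → w i ∉ I)
    (hw : ∀ i < k, G.Adj (w i) (w (i + 1))) (hinj : ∀ i j, i < j → j < k → w i ≠ w j) :
    Comp5 G := by
  classical
  have htne : ∀ a b, a ∉ I → b ∉ I → G.Adj a b → t a ≠ t b := by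
    intro a b ha hb hab he
    have h1 := (ht a ha).2
    have h2 := (ht b hb).2
    rw [he] at h1
    exact S.tf a b (t b) hab h2 h1
  have hinj' : ∀ i j, i < k → j < k → w i = w j → i = j := by
    intro i j hi hj h
    rcases lt_trichotomy i j with h1 | h1 | h1
    · exact absurd h (hinj i j h1 hj)
    · exact h1
    · exact absurd h.symm (hinj j i h1 hi)
  -- index function
  let idx : V → ℕ := fun u => if h : ∃ i, i < k ∧ w i = u then Nat.find h else k
  have hidx : ∀ i, i < k → idx (w i) = i := by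
    intro i hi
    have hex : ∃ j, j < k ∧ w j = w i := ⟨i, hi, rfl⟩
    have : idx (w i) = Nat.find hex := by
      simp only [idx]
      rw [dif_pos hex]
    rw [this]
    exact hinj' _ _ (Nat.find_spec hex).1 hi (Nat.find_spec hex).2
  have hlast : G.Adj (w 0) (w (k - 1)) := by
    have := hw (k - 1) (by omega)
    rw [show k - 1 + 1 = k by omega, hw0] at this
    exact this.symm
  have hv : ∀ i, i < k → w i ≠ v := by
    intro i hi he
    have := hw i hi
    rw [he] at this
    have h2 := S.nv _ this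
    rcases Nat.lt_or_ge (i + 1) k with h | h
    · exact hwI _ h h2
    · rw [show i + 1 = k by omega, hw0] at h2
      exact hwI 0 (by omega) h2
  have hne : ∀ i, i + 1 < k → t (w i) ≠ t (w (i + 1)) := fun i hi =>
    htne _ _ (hwI _ (by omega)) (hwI _ (by omega)) (hw i (by omega))
  have hnelast : t (w 0) ≠ t (w (k - 1)) :=
    htne _ _ (hwI _ (by omega)) (hwI _ (by omega)) hlast
  -- generic finishing tool
  have fin : ∀ (K : ℕ → Fin 3) (χ : V → Bool),
      (∃ a b, a < k ∧ b < k ∧ K a = 0 ∧ K b = 1 ∧ G.Adj (w a) (w b)) →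
      (∃ a b, a < k ∧ b < k ∧ K a = 0 ∧ K b = 2 ∧ G.Adj (w a) (w b)) →
      (∃ a b, a < k ∧ b < k ∧ K a = 1 ∧ K b = 2 ∧ G.Adj (w a) (w b)) →
      (∀ i : Fin 3, ∃ a b, a < k ∧ b < k ∧ K a = i ∧ K b = i ∧ χ (t (w a)) ≠ χ (t (w b))) →
      Comp5 G := by
    intro K χ h01 h02 h12 h2
    refine split' S (fun u => K (idx u)) χ ?_ ?_
    · intro i j hij
      have hc : (i = 0 ∧ j = 1) ∨ (i = 0 ∧ j = 2) ∨ (i = 1 ∧ j = 2) := by
        revert hij; revert i j; decide
      rcases hc with ⟨rfl, rfl⟩ | ⟨rfl, rfl⟩ | ⟨rfl, rfl⟩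
      · obtain ⟨a, b, ha, hb, h1, h2, h3⟩ := h01
        exact ⟨w a, w b, hwI a ha, hwI b hb, by simp only [hidx a ha, h1],
          by simp only [hidx b hb, h2], h3⟩
      · obtain ⟨a, b, ha, hb, h1, h2, h3⟩ := h02
        exact ⟨w a, w b, hwI a ha, hwI b hb, by simp only [hidx a ha, h1],
          by simp only [hidx b hb, h2], h3⟩
      · obtain ⟨a, b, ha, hb, h1, h2, h3⟩ := h12
        exact ⟨w a, w b, hwI a ha, hwI b hb, by simp only [hidx a ha, h1],
          by simp only [hidx b hb, h2], h3⟩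
    · intro i
      obtain ⟨a, b, ha, hb, h1, h2, h3⟩ := h2 i
      exact ⟨w a, t (w a), w b, t (w b), hwI a ha, hv a ha, by simp only [hidx a ha, h1],
        (ht _ (hwI a ha)).1, (ht _ (hwI a ha)).2, hwI b hb, hv b hb,
        by simp only [hidx b hb, h2], (ht _ (hwI b hb)).1, (ht _ (hwI b hb)).2, h3⟩
  -- pattern
  obtain ⟨r, hr1, hr2⟩ := pattern (fun i : Fin 7 => t (w i.val))
  have r0 : r 0 = 0 := by have := hr1 0; simpa using this
  have hb : ∀ i : Fin 7, r i < i.val + 1 := fun i => Nat.lt_succ_of_le (hr1 i)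
  have key := fin7 ⟨r 1, hb 1⟩ ⟨r 2, hb 2⟩ ⟨r 3, hb 3⟩ ⟨r 4, hb 4⟩ ⟨r 5, hb 5⟩ ⟨r 6, hb 6⟩ (by
    have n01 : r 0 ≠ r 1 := fun h => hne 0 (by omega) ((hr2 0 1).2 h)
    have n12 : r 1 ≠ r 2 := fun h => hne 1 (by omega) ((hr2 1 2).2 h)
    have n23 : r 2 ≠ r 3 := fun h => hne 2 (by omega) ((hr2 2 3).2 h)
    have n34 : r 3 ≠ r 4 := fun h => hne 3 (by omega) ((hr2 3 4).2 h)
    have n45 : r 4 ≠ r 5 := fun h => hne 4 (by omega) ((hr2 4 5).2 h)
    have n56 : r 5 ≠ r 6 := fun h => hne 5 (by omega) ((hr2 5 6).2 h)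
    rw [r0] at n01
    simp only [Bool.and_eq_true, bne_iff_ne]
    exact ⟨⟨⟨⟨⟨n01, n12⟩, n23⟩, n34⟩, n45⟩, n56⟩)
  simp only at key
  unfold good7 at key
  simp only [Bool.or_eq_true, Bool.and_eq_true, beq_iff_eq] at key
  -- arrangement 1
  have arr1 : ∀ a b, 4 ≤ a → 4 ≤ b → a < k → b < k →
      Sep (t (w 0)) (t (w 1)) (t (w 2)) (t (w 3)) (t (w a)) (t (w b)) → Comp5 G := by
    rintro a b ha4 hb4 hak hbk ⟨χ, h1, h2, h3⟩
    refine fin (fun i => if i < 2 then 0 else if i < 4 then 1 else 2) χ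
      ⟨1, 2, by omega, by omega, by simp, by simp, hw 1 (by omega)⟩
      ⟨0, k - 1, by omega, by omega, by simp, ?_, hlast⟩
      ⟨3, 4, by omega, by omega, by simp, by simp, hw 3 (by omega)⟩ ?_
    · rw [if_neg (by omega), if_neg (by omega)]
    · intro i
      have hc : i = 0 ∨ i = 1 ∨ i = 2 := by revert i; decide
      rcases hc with rfl | rfl | rfl
      · exact ⟨0, 1, by omega, by omega, by simp, by simp, h1⟩
      · exact ⟨2, 3, by omega, by omega, by simp, by simp, h2⟩
      · refine ⟨a, b, by omega, by omega, ?_, ?_, h3⟩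
        · rw [if_neg (by omega), if_neg (by omega)]
        · rw [if_neg (by omega), if_neg (by omega)]
  -- arrangement with the letter x at p, 4, 6
  have arr2 : ∀ p q, p < 3 → (q < p ∨ 6 < q ∨ (q = 6 ∧ k = 7)) → q < k → G.Adj (w p) (w q) →
      t (w p) = t (w 4) → t (w p) = t (w 6) → Comp5 G := by
    intro p q hp hq hqk hadj h4 h6
    have hq' : q < p ∨ 6 ≤ q := by omega
    refine fin (fun i => if i < p then 2 else if i < 4 then 0 else if i < 6 then 1 else 2)
      (fun y => decide (y = t (w p)))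
      ⟨3, 4, by omega, by omega, ?_, ?_, hw 3 (by omega)⟩
      ⟨p, q, by omega, by omega, ?_, ?_, hadj⟩
      ⟨5, 6, by omega, by omega, ?_, ?_, hw 5 (by omega)⟩ ?_
    · rw [if_neg (by omega), if_pos (by omega)]
    · rw [if_neg (by omega), if_neg (by omega), if_pos (by omega)]
    · rw [if_neg (by omega), if_pos (by omega)]
    · rcases hq' with h | h
      · rw [if_pos h]
      · rw [if_neg (by omega), if_neg (by omega), if_neg (by omega)]
    · rw [if_neg (by omega), if_neg (by omega), if_pos (by omega)]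
    · rw [if_neg (by omega), if_neg (by omega), if_neg (by omega)]
    · intro i
      have hc : i = 0 ∨ i = 1 ∨ i = 2 := by revert i; decide
      rcases hc with rfl | rfl | rfl
      · refine ⟨p, p + 1, by omega, by omega, ?_, ?_, ?_⟩
        · rw [if_neg (by omega), if_pos (by omega)]
        · rw [if_neg (by omega), if_pos (by omega)]
        · have := hne p (by omega)
          simp only [decide_true, ne_eq]
          rw [decide_eq_false (fun h => this h.symm)]
          decide
      · refine ⟨4, 5, by omega, by omega, ?_, ?_, ?_⟩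
        · rw [if_neg (by omega), if_neg (by omega), if_pos (by omega)]
        · rw [if_neg (by omega), if_neg (by omega), if_pos (by omega)]
        · have := hne 4 (by omega)
          simp only [h4, decide_true, ne_eq]
          rw [decide_eq_false (fun h => this h.symm)]
          decide
      · refine ⟨6, q, by omega, by omega, ?_, ?_, ?_⟩
        · rw [if_neg (by omega), if_neg (by omega), if_neg (by omega)]
        · rcases hq' with h | h
          · rw [if_pos h]
          · rw [if_neg (by omega), if_neg (by omega), if_neg (by omega)]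
        · have h7 : t (w p) ≠ t (w q) := htne _ _ (hwI _ (by omega)) (hwI _ (by omega)) hadj
          rw [h6] at h7
          simp only [h6, decide_true, ne_eq]
          rw [decide_eq_false (fun h => h7 h.symm)]
          decide
  have eqt : ∀ i j : Fin 7, r i = r j → t (w i.val) = t (w j.val) := fun i j h => (hr2 i j).2 h
  rcases key with (((h | h) | h) | h) | h
  · have hh : sepB (r 0) (r 1) (r 2) (r 3) (r 4) (r 5) = true := by rw [r0]; exact h
    exact arr1 4 5 (by omega) (by omega) (by omega) (by omega)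
      (sep_of_sepB (fun i : Fin 7 => t (w i.val)) r hr2 0 1 2 3 4 5 hh)
  · have hh : sepB (r 0) (r 1) (r 2) (r 3) (r 5) (r 6) = true := by rw [r0]; exact h
    exact arr1 5 6 (by omega) (by omega) (by omega) (by omega)
      (sep_of_sepB (fun i : Fin 7 => t (w i.val)) r hr2 0 1 2 3 5 6 hh)
  · exact arr2 1 0 (by omega) (by omega) (by omega) (hw 0 (by omega)).symm
      (eqt 1 4 h.1) (eqt 1 6 h.2)
  · exact arr2 2 1 (by omega) (by omega) (by omega) (hw 1 (by omega)).symm
      (eqt 2 4 h.1) (eqt 2 6 h.2)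
  · exact arr2 0 (k - 1) (by omega) (by omega) (by omega) hlast
      (eqt 0 4 (by rw [r0]; exact h.1)) (eqt 0 6 (by rw [r0]; exact h.2))

end H64R3.Psi
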