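import Pool.Agent.H64R3.Psi1
import Pool.Agent.H64R3.Psi2

set_option autoImplicit false

namespace H64R3.Psi

structure C5 {V : Type} (G : SimpleGraph V) (I : Set V) (c : Fin 5 → V) : Prop where
  inj : Function.Injective c
  out : ∀ i, c i ∉ I
  adj : ∀ i, G.Adj (c i) (c (i + 1))

theorem C5.rot {V : Type} {G : SimpleGraph V} {I : Set V} {c : Fin 5 → V} (h : C5 G I c)
    (j : Fin 5) : C5 G I (fun i => c (i + j)) where
  inj := fun a b hab => by
    have := h.inj hab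
    exact add_right_cancel this
  out := fun i => h.out _
  adj := fun i => by
    have := h.adj (i + j)
    rwa [show i + j + 1 = i + 1 + j from add_right_comm i j 1] at this

theorem C5.nev {V : Type} {G : SimpleGraph V} {I : Set V} {v : V} (S : Setup G I v)
    {c : Fin 5 → V} (h : C5 G I c) (i : Fin 5) : c i ≠ v := by
  intro he
  have := h.adj i
  rw [he] at this
  exact h.out _ (S.nv _ this)

theorem five_sep {V : Type} {G : SimpleGraph V} {I : Set V} {v : V} (S : Setup G I v)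
    (c : Fin 5 → V) (hc : C5 G I c) (e : V) (heI : e ∉ I) (hev : e ≠ v) (hec : ∀ i, c i ≠ e)
    (s : Fin 5 → V) (hs : ∀ i, s i ∈ I ∧ G.Adj (c i) (s i)) (σ : V) (hσ : σ ∈ I)
    (heσ : G.Adj e σ) (hsep : Sep (s 1) (s 2) (s 3) (s 4) (s 0) σ) : Comp5 G := by
  classical
  obtain ⟨χ, h1, h2, h3⟩ := hsep
  have n : ∀ i j : Fin 5, i ≠ j → c i ≠ c j := fun i j hij h => hij (hc.inj h)
  set κ : V → Fin 3 := fun u => if u = c 1 ∨ u = c 2 then 0 else
    if u = c 3 ∨ u = c 4 then 1 else 2 with hκ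
  have k1 : κ (c 1) = 0 := by simp [hκ]
  have k2 : κ (c 2) = 0 := by simp [hκ]
  have k3 : κ (c 3) = 1 := by
    simp [hκ, n 3 1 (by decide), n 3 2 (by decide)]
  have k4 : κ (c 4) = 1 := by
    simp [hκ, n 4 1 (by decide), n 4 2 (by decide)]
  have k0 : κ (c 0) = 2 := by
    simp [hκ, n 0 1 (by decide), n 0 2 (by decide), n 0 3 (by decide), n 0 4 (by decide)]
  have ke : κ e = 2 := by
    simp [hκ, (hec 1).symm, (hec 2).symm, (hec 3).symm, (hec 4).symm]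
  have a01 := hc.adj 0
  have a12 := hc.adj 1
  have a23 := hc.adj 2
  have a34 := hc.adj 3
  have a40 := hc.adj 4
  simp only [show (0 : Fin 5) + 1 = 1 by decide, show (1 : Fin 5) + 1 = 2 by decide,
    show (2 : Fin 5) + 1 = 3 by decide, show (3 : Fin 5) + 1 = 4 by decide,
    show (4 : Fin 5) + 1 = 0 by decide] at a01 a12 a23 a34 a40
  refine split' S κ χ ?_ ?_
  · intro i j hij
    have hcs : (i = 0 ∧ j = 1) ∨ (i = 0 ∧ j = 2) ∨ (i = 1 ∧ j = 2) := by
      revert hij; revert i j; decide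
    rcases hcs with ⟨rfl, rfl⟩ | ⟨rfl, rfl⟩ | ⟨rfl, rfl⟩
    · exact ⟨c 2, c 3, hc.out _, hc.out _, k2, k3, a23⟩
    · exact ⟨c 1, c 0, hc.out _, hc.out _, k1, k0, a01.symm⟩
    · exact ⟨c 4, c 0, hc.out _, hc.out _, k4, k0, a40⟩
  · intro i
    have hcs : i = 0 ∨ i = 1 ∨ i = 2 := by revert i; decide
    rcases hcs with rfl | rfl | rfl
    · exact ⟨c 1, s 1, c 2, s 2, hc.out _, hc.nev S _, k1, (hs 1).1, (hs 1).2, hc.out _,
        hc.nev S _, k2, (hs 2).1, (hs 2).2, h1⟩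
    · exact ⟨c 3, s 3, c 4, s 4, hc.out _, hc.nev S _, k3, (hs 3).1, (hs 3).2, hc.out _,
        hc.nev S _, k4, (hs 4).1, (hs 4).2, h2⟩
    · exact ⟨c 0, s 0, e, σ, hc.out _, hc.nev S _, k0, (hs 0).1, (hs 0).2, heI,
        hev, ke, hσ, heσ, h3⟩

def Exc {V : Type} (s : Fin 5 → V) (σ : V) : Prop :=
  ∃ j : Fin 5, s j = s (j + 2) ∧ s (j + 1) = s (j + 3) ∧ s (j + 4) = σ

theorem five_exc {V : Type} {G : SimpleGraph V} {I : Set V} {v : V} (S : Setup G I v)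
    (hC : ¬ Comp5 G)
    (c : Fin 5 → V) (hc : C5 G I c) (e : V) (heI : e ∉ I) (hev : e ≠ v) (hec : ∀ i, c i ≠ e)
    (s : Fin 5 → V) (hs : ∀ i, s i ∈ I ∧ G.Adj (c i) (s i)) (σ : V) (hσ : σ ∈ I)
    (heσ : G.Adj e σ) : Exc s σ := by
  have prop : ∀ i, s i ≠ s (i + 1) := by
    intro i h
    have h1 := (hs i).2
    have h2 := (hs (i + 1)).2
    rw [h] at h1
    exact S.tf _ _ _ (hc.adj i) h2 h1
  obtain ⟨r, hr1, hr2⟩ := pattern (![s 0, s 1, s 2, s 3, s 4, σ] : Fin 6 → V)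
  have r0 : r 0 = 0 := by have := hr1 0; simpa using this
  have hb : ∀ i : Fin 6, r i < i.val + 1 := fun i => Nat.lt_succ_of_le (hr1 i)
  have p01 := prop 0
  have p12 := prop 1
  have p23 := prop 2
  have p34 := prop 3
  have p40 := prop 4
  simp only [show (0 : Fin 5) + 1 = 1 by decide, show (1 : Fin 5) + 1 = 2 by decide,
    show (2 : Fin 5) + 1 = 3 by decide, show (3 : Fin 5) + 1 = 4 by decide,
    show (4 : Fin 5) + 1 = 0 by decide] at p01 p12 p23 p34 p40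
  have n01 : r 0 ≠ r 1 := fun h => p01 ((hr2 0 1).2 h)
  have n12 : r 1 ≠ r 2 := fun h => p12 ((hr2 1 2).2 h)
  have n23 : r 2 ≠ r 3 := fun h => p23 ((hr2 2 3).2 h)
  have n34 : r 3 ≠ r 4 := fun h => p34 ((hr2 3 4).2 h)
  have n40 : r 4 ≠ r 0 := fun h => p40 ((hr2 4 0).2 h)
  have key := fin5 ⟨r 1, hb 1⟩ ⟨r 2, hb 2⟩ ⟨r 3, hb 3⟩ ⟨r 4, hb 4⟩ ⟨r 5, hb 5⟩ (by
    simp only [Bool.and_eq_true, bne_iff_ne]
    rw [r0] at n01 n40
    exact ⟨⟨⟨⟨n01, n12⟩, n23⟩, n34⟩, n40⟩)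
  simp only at key
  rw [← r0] at key
  rw [Bool.or_eq_true] at key
  rcases key with key | key
  · exfalso
    apply hC
    unfold good5 at key
    simp only [Bool.or_eq_true] at key
    have fin : ∀ j : Fin 5, Sep (s (1 + j)) (s (2 + j)) (s (3 + j)) (s (4 + j)) (s (0 + j)) σ →
        Comp5 G := fun j hj =>
      five_sep S (fun i => c (i + j)) (hc.rot j) e heI hev (fun i => hec _)
        (fun i => s (i + j)) (fun i => hs _) σ hσ heσ hj
    rcases key with (((h | h) | h) | h) | h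
    · exact fin 0 (sep_of_sepB (![s 0, s 1, s 2, s 3, s 4, σ] : Fin 6 → V) r hr2 1 2 3 4 0 5 h)
    · exact fin 1 (sep_of_sepB (![s 0, s 1, s 2, s 3, s 4, σ] : Fin 6 → V) r hr2 2 3 4 0 1 5 h)
    · exact fin 2 (sep_of_sepB (![s 0, s 1, s 2, s 3, s 4, σ] : Fin 6 → V) r hr2 3 4 0 1 2 5 h)
    · exact fin 3 (sep_of_sepB (![s 0, s 1, s 2, s 3, s 4, σ] : Fin 6 → V) r hr2 4 0 1 2 3 5 h)
    · exact fin 4 (sep_of_sepB (![s 0, s 1, s 2, s 3, s 4, σ] : Fin 6 → V) r hr2 0 1 2 3 4 5 h)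
  · unfold exc5 at key
    simp only [Bool.or_eq_true, Bool.and_eq_true, beq_iff_eq] at key
    have tr : ∀ i j : Fin 6, r i = r j → (![s 0, s 1, s 2, s 3, s 4, σ] : Fin 6 → V) i =
        (![s 0, s 1, s 2, s 3, s 4, σ] : Fin 6 → V) j := fun i j h => (hr2 i j).2 h
    rcases key with (((h | h) | h) | h) | h
    · exact ⟨0, tr 0 2 h.1.1, tr 1 3 h.1.2, tr 4 5 h.2⟩
    · exact ⟨1, tr 1 3 h.1.1, tr 2 4 h.1.2, tr 0 5 h.2⟩
    · exact ⟨2, tr 2 4 h.1.1, tr 3 0 h.1.2, tr 1 5 h.2⟩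
    · exact ⟨3, tr 3 0 h.1.1, tr 4 1 h.1.2, tr 2 5 h.2⟩
    · exact ⟨4, tr 4 1 h.1.1, tr 0 2 h.1.2, tr 3 5 h.2⟩

/-- the letter sets are all singletons -/
theorem five_single {V : Type} {G : SimpleGraph V} {I : Set V} {v : V} (S : Setup G I v)
    (hC : ¬ Comp5 G)
    (c : Fin 5 → V) (hc : C5 G I c) (s : Fin 5 → V) (hs : ∀ i, s i ∈ I ∧ G.Adj (c i) (s i))
    (e : V) (heI : e ∉ I) (hev : e ≠ v) (hec : ∀ i, c i ≠ e)
    (heσ : G.Adj e (s 4)) (h02 : s 0 = s 2) (h13 : s 1 = s 3) :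
    (∀ i, ∀ t ∈ I, G.Adj (c i) t → t = s i) ∧
    (∀ e', e' ∉ I → e' ≠ v → (∀ i, c i ≠ e') → ∀ t ∈ I, G.Adj e' t → t = s 4) := by
  have prop : ∀ i, s i ≠ s (i + 1) := by
    intro i h
    have h1 := (hs i).2
    have h2 := (hs (i + 1)).2
    rw [h] at h1
    exact S.tf _ _ _ (hc.adj i) h2 h1
  have p01 := prop 0
  have p34 := prop 3
  have p40 := prop 4
  simp only [show (0 : Fin 5) + 1 = 1 by decide, show (3 : Fin 5) + 1 = 4 by decide,
    show (4 : Fin 5) + 1 = 0 by decide] at p01 p34 p40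
  constructor
  · intro i t ht hadj
    have hx : Exc (Function.update s i t) (s 4) := by
      refine five_exc S hC c hc e heI hev hec (Function.update s i t) ?_ (s 4) (hs 4).1 heσ
      intro i'
      by_cases h : i' = i
      · subst h
        simp [ht, hadj]
      · simp only [Function.update_of_ne h]
        exact hs i'
    have q1 : t ≠ s (i + 1) := by
      intro h
      have h2 := (hs (i + 1)).2
      rw [h] at hadj
      exact S.tf _ _ _ (hc.adj i) h2 hadj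
    have q2 : t ≠ s (i + 4) := by
      intro h
      have h2 := (hs (i + 4)).2
      rw [← h] at h2
      have h3 := hc.adj (i + 4)
      have e4 : i + 4 + 1 = i := by
        rw [add_assoc, show (4 : Fin 5) + 1 = 0 by decide, add_zero]
      rw [e4] at h3
      exact S.tf _ _ _ h3 hadj h2
    obtain ⟨j, j1, j2, j3⟩ := hx
    clear hs hC S hadj ht prop hev heI hec heσ hc
    fin_cases i <;> fin_cases j <;> simp [Function.update] at j1 j2 j3 q1 q2 ⊢ <;> grind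
  · intro e' he'I he'v he'c t ht hadj
    obtain ⟨j, j1, j2, j3⟩ := five_exc S hC c hc e' he'I he'v he'c s hs t ht hadj
    clear hs hC S hadj ht prop hev heI hec heσ hc
    fin_cases j <;> simp at j1 j2 j3 ⊢ <;> grind

end H64R3.Psi
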