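import Pool.Agent.H64R3.Psi3
import Pool.Agent.H64R3.Psi4

set_option autoImplicit false

namespace H64R3.Psi

theorem two_extra {V : Type} {G : SimpleGraph V} {I : Set V} {v : V} (S : Setup G I v)
    (c : Fin 5 → V) (hc : C5 G I c) (e e' : V) (heI : e ∉ I) (hev : e ≠ v) (hec : ∀ i, c i ≠ e)
    (he'I : e' ∉ I) (he'v : e' ≠ v) (he'c : ∀ i, c i ≠ e') (hee : e ≠ e')
    (s : Fin 5 → V) (hs : ∀ i, s i ∈ I ∧ G.Adj (c i) (s i))
    (h1 : G.Adj e (s 4)) (h2 : G.Adj e' (s 4)) (n0 : s 0 ≠ s 4) (n1 : s 1 ≠ s 4)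
    (n2 : s 2 ≠ s 4) : Comp5 G := by
  classical
  have n : ∀ i j : Fin 5, i ≠ j → c i ≠ c j := fun i j hij h => hij (hc.inj h)
  set κ : V → Fin 3 := fun u => if u = c 4 ∨ u = c 0 then 0 else
    if u = c 1 ∨ u = e then 1 else 2 with hκ
  have k4 : κ (c 4) = 0 := by simp [hκ]
  have k0 : κ (c 0) = 0 := by simp [hκ]
  have k1 : κ (c 1) = 1 := by
    simp [hκ, n 1 4 (by decide), n 1 0 (by decide)]
  have ke : κ e = 1 := by
    simp [hκ, (hec 4).symm, (hec 0).symm]
  have k2 : κ (c 2) = 2 := by
    simp [hκ, n 2 4 (by decide), n 2 0 (by decide), n 2 1 (by decide), hec 2]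
  have k3 : κ (c 3) = 2 := by
    simp [hκ, n 3 4 (by decide), n 3 0 (by decide), n 3 1 (by decide), hec 3]
  have ke' : κ e' = 2 := by
    simp [hκ, (he'c 4).symm, (he'c 0).symm, (he'c 1).symm, hee.symm]
  have a01 := hc.adj 0
  have a12 := hc.adj 1
  have a34 := hc.adj 3
  simp only [show (0 : Fin 5) + 1 = 1 by decide, show (1 : Fin 5) + 1 = 2 by decide,
    show (3 : Fin 5) + 1 = 4 by decide] at a01 a12 a34
  refine split' S κ (fun y => decide (y = s 4)) ?_ ?_
  · intro i j hij
    have hcs : (i = 0 ∧ j = 1) ∨ (i = 0 ∧ j = 2) ∨ (i = 1 ∧ j = 2) := by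
      revert hij; revert i j; decide
    rcases hcs with ⟨rfl, rfl⟩ | ⟨rfl, rfl⟩ | ⟨rfl, rfl⟩
    · exact ⟨c 0, c 1, hc.out _, hc.out _, k0, k1, a01⟩
    · exact ⟨c 4, c 3, hc.out _, hc.out _, k4, k3, a34.symm⟩
    · exact ⟨c 1, c 2, hc.out _, hc.out _, k1, k2, a12⟩
  · intro i
    have hcs : i = 0 ∨ i = 1 ∨ i = 2 := by revert i; decide
    rcases hcs with rfl | rfl | rfl
    · exact ⟨c 4, s 4, c 0, s 0, hc.out _, hc.nev S _, k4, (hs 4).1, (hs 4).2, hc.out _,
        hc.nev S _, k0, (hs 0).1, (hs 0).2, by simp [n0]⟩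
    · exact ⟨e, s 4, c 1, s 1, heI, hev, ke, (hs 4).1, h1, hc.out _,
        hc.nev S _, k1, (hs 1).1, (hs 1).2, by simp [n1]⟩
    · exact ⟨e', s 4, c 2, s 2, he'I, he'v, ke', (hs 4).1, h2, hc.out _,
        hc.nev S _, k2, (hs 2).1, (hs 2).2, by simp [n2]⟩

/-- exactly one extra vertex: the graph is three-colourable -/
theorem one_extra {V : Type} {G : SimpleGraph V} {I : Set V} {v : V} (S : Setup G I v)
    (c : Fin 5 → V) (hc : C5 G I c) (e : V) (heI : e ∉ I) (hev : e ≠ v) (hec : ∀ i, c i ≠ e)
    (hF : ∀ u, u ∉ I → u = v ∨ u = e ∨ ∃ i, u = c i)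
    (s : Fin 5 → V) (hs : ∀ i, s i ∈ I ∧ G.Adj (c i) (s i))
    (h02 : s 0 = s 2) (h13 : s 1 = s 3)
    (hT : ∀ i, ∀ t ∈ I, G.Adj (c i) t → t = s i)
    (hTe : ∀ t ∈ I, G.Adj e t → t = s 4)
    (n01 : s 0 ≠ s 1) (n04 : s 0 ≠ s 4) : G.Colorable 3 := by
  classical
  have n : ∀ i j : Fin 5, i ≠ j → c i ≠ c j := fun i j hij h => hij (hc.inj h)
  have nv := hc.nev S
  have es4 : G.Adj e (s 4) := by
    obtain ⟨t, ht, hadj⟩ := S.dom e heI
    rw [← hTe t ht hadj]
    exact hadj
  set col : V → Fin 3 := fun u => if u = v then 0 else if u = c 0 ∨ u = c 2 then 2 else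
    if u = c 1 ∨ u = c 3 then 0 else if u = c 4 ∨ u = e then 1 else
    if u = s 1 ∨ u = s 4 then 2 else 1 with hcol
  have cv : col v = 0 := by simp [hcol]
  have c0 : col (c 0) = 2 := by simp [hcol, nv]
  have c2 : col (c 2) = 2 := by simp [hcol, nv]
  have c1 : col (c 1) = 0 := by
    simp [hcol, n 1 0 (by decide), n 1 2 (by decide)]
  have c3 : col (c 3) = 0 := by
    simp [hcol, n 3 0 (by decide), n 3 2 (by decide)]
  have c4 : col (c 4) = 1 := by
    simp [hcol, nv, n 4 0 (by decide), n 4 2 (by decide), n 4 1 (by decide), n 4 3 (by decide)]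
  have ce : col e = 1 := by
    simp [hcol, hev, (hec 0).symm, (hec 1).symm, (hec 2).symm, (hec 3).symm]
  have cI : ∀ b, b ∈ I → col b = if b = s 1 ∨ b = s 4 then 2 else 1 := by
    intro b hb
    have b1 : b ≠ v := fun h => S.vI (h ▸ hb)
    have b2 : ∀ i, b ≠ c i := fun i h => hc.out i (h ▸ hb)
    have b3 : b ≠ e := fun h => heI (h ▸ hb)
    simp [hcol, b1, b2, b3]
  have cs1 : col (s 1) = 2 := by rw [cI _ (hs 1).1]; simp
  have cs4 : col (s 4) = 2 := by rw [cI _ (hs 4).1]; simp
  have cs0 : col (s 0) = 1 := by rw [cI _ (hs 0).1]; simp [n01, n04]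
  have cs2 : col (s 2) = 1 := by rw [← h02]; exact cs0
  have cs3 : col (s 3) = 2 := by rw [← h13]; exact cs1
  have a01 := hc.adj 0
  have a12 := hc.adj 1
  have a23 := hc.adj 2
  have a34 := hc.adj 3
  have a40 := hc.adj 4
  simp only [show (0 : Fin 5) + 1 = 1 by decide, show (1 : Fin 5) + 1 = 2 by decide,
    show (2 : Fin 5) + 1 = 3 by decide, show (3 : Fin 5) + 1 = 4 by decide,
    show (4 : Fin 5) + 1 = 0 by decide] at a01 a12 a23 a34 a40
  have x02 : ¬ G.Adj (c 0) (c 2) := S.tf _ _ _ a01 a12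
  have x13 : ¬ G.Adj (c 1) (c 3) := S.tf _ _ _ a12 a23
  have x4e : ¬ G.Adj (c 4) e := fun h => S.tf _ _ _ h es4 (hs 4).2
  -- main check
  have main : ∀ a b, a ∉ I → G.Adj a b → col a ≠ col b := by
    intro a b ha hab
    by_cases hb : b ∈ I
    · rcases hF a ha with rfl | rfl | ⟨i, rfl⟩
      · rw [cv, cI b hb]
        split_ifs <;> decide
      · rw [hTe b hb hab, ce, cs4]; decide
      · rw [hT i b hb hab]
        fin_cases i
        · simp [c0, cs0]
        · simp [c1, cs1]
        · simp [c2, cs2]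
        · simp [c3, cs3]
        · simp [c4, cs4]
    · rcases hF a ha with rfl | rfl | ⟨i, rfl⟩
      · exact absurd (S.nv _ hab) hb
      · rcases hF b hb with rfl | rfl | ⟨j, rfl⟩
        · exact absurd (S.nv _ hab.symm) ha
        · exact absurd hab (G.loopless.irrefl _)
        · rw [ce]
          fin_cases j
          · simp [c0]
          · simp [c1]
          · simp [c2]
          · simp [c3]
          · exact absurd hab.symm x4e
      · rcases hF b hb with rfl | rfl | ⟨j, rfl⟩
        · exact absurd (S.nv _ hab.symm) ha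
        · rw [ce]
          fin_cases i
          · simp [c0]
          · simp [c1]
          · simp [c2]
          · simp [c3]
          · exact absurd hab x4e
        · fin_cases i <;> fin_cases j <;> simp [c0, c1, c2, c3, c4] at hab ⊢
          · exact x02 hab
          · exact x13 hab
          · exact x02 hab.symm
          · exact x13 hab.symm
  refine ⟨SimpleGraph.Coloring.mk col ?_⟩
  intro a b hab
  by_cases ha : a ∈ I
  · have hb : b ∉ I := fun hb => S.ind a ha b hb hab
    exact (main b a hb hab.symm).symm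
  · exact main a b ha hab

theorem no_extra {V : Type} {G : SimpleGraph V} {I : Set V} {v : V} (S : Setup G I v)
    (hcol : ¬ G.Colorable 3)
    (c : Fin 5 → V) (hc : C5 G I c)
    (hF : ∀ u, u ∉ I → u = v ∨ ∃ i, u = c i) : Comp5 G := by
  classical
  have n : ∀ i j : Fin 5, i ≠ j → c i ≠ c j := fun i j hij h => hij (hc.inj h)
  -- common neighbour of c 4 and c 1
  have key : ∀ (c : Fin 5 → V), C5 G I c → (∀ u, u ∉ I → u = v ∨ ∃ i, u = c i) →
      ∃ t ∈ I, G.Adj (c 4) t ∧ G.Adj (c 1) t := by
    intro c hc hF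
    by_contra hno
    push Not at hno
    apply hcol
    have n : ∀ i j : Fin 5, i ≠ j → c i ≠ c j := fun i j hij h => hij (hc.inj h)
    have nv := hc.nev S
    have a01 := hc.adj 0
    have a12 := hc.adj 1
    have a23 := hc.adj 2
    have a34 := hc.adj 3
    have a40 := hc.adj 4
    simp only [show (0 : Fin 5) + 1 = 1 by decide, show (1 : Fin 5) + 1 = 2 by decide,
      show (2 : Fin 5) + 1 = 3 by decide, show (3 : Fin 5) + 1 = 4 by decide,
      show (4 : Fin 5) + 1 = 0 by decide] at a01 a12 a23 a34 a40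
    -- colours: v = 0, c0 = 0, c4 = 1, c1 = 2, c2 = 0, c3 = 2
    set col : V → Fin 3 := fun u => if u = v ∨ u = c 0 ∨ u = c 2 then 0 else
      if u = c 4 then 1 else if u = c 1 ∨ u = c 3 then 2 else
      if G.Adj (c 4) u then 2 else 1 with hcoldef
    have cv : col v = 0 := by simp [hcoldef]
    have c0 : col (c 0) = 0 := by simp [hcoldef]
    have c2 : col (c 2) = 0 := by simp [hcoldef]
    have c4 : col (c 4) = 1 := by
      simp [hcoldef, nv, n 4 0 (by decide), n 4 2 (by decide)]
    have c1 : col (c 1) = 2 := by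
      simp [hcoldef, nv, n 1 0 (by decide), n 1 2 (by decide), n 1 4 (by decide)]
    have c3 : col (c 3) = 2 := by
      simp [hcoldef, nv, n 3 0 (by decide), n 3 2 (by decide), n 3 4 (by decide)]
    have cI : ∀ b, b ∈ I → col b = if G.Adj (c 4) b then 2 else 1 := by
      intro b hb
      have b1 : b ≠ v := fun h => S.vI (h ▸ hb)
      have b2 : ∀ i, b ≠ c i := fun i h => hc.out i (h ▸ hb)
      simp [hcoldef, b1, b2]
    have x02 : ¬ G.Adj (c 0) (c 2) := S.tf _ _ _ a01 a12
    have x13 : ¬ G.Adj (c 1) (c 3) := S.tf _ _ _ a12 a23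
    have main : ∀ a b, a ∉ I → G.Adj a b → col a ≠ col b := by
      intro a b ha hab
      by_cases hb : b ∈ I
      · rw [cI b hb]
        rcases hF a ha with rfl | ⟨i, rfl⟩
        · rw [cv]
          split_ifs <;> decide
        · fin_cases i
          · simp only [Fin.zero_eta, c0]
            split_ifs <;> decide
          · simp only [Fin.mk_one, c1]
            rw [if_neg (fun h => hno b hb h hab)]
            decide
          · simp only [Fin.reduceFinMk, c2]
            split_ifs <;> decide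
          · simp only [Fin.reduceFinMk, c3]
            rw [if_neg (fun h => S.tf _ _ _ a34 h hab)]
            decide
          · simp only [Fin.reduceFinMk, c4]
            have hab' : G.Adj (c 4) b := hab
            rw [if_pos hab']
            decide
      · rcases hF a ha with rfl | ⟨i, rfl⟩
        · exact absurd (S.nv _ hab) hb
        · rcases hF b hb with rfl | ⟨j, rfl⟩
          · exact absurd (S.nv _ hab.symm) ha
          · fin_cases i <;> fin_cases j <;> simp [c0, c1, c2, c3, c4] at hab ⊢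
            · exact x02 hab
            · exact x13 hab
            · exact x02 hab.symm
            · exact x13 hab.symm
    refine ⟨SimpleGraph.Coloring.mk col ?_⟩
    intro a b hab
    by_cases ha : a ∈ I
    · have hb : b ∉ I := fun hb => S.ind a ha b hb hab
      exact (main b a hb hab.symm).symm
    · exact main a b ha hab
  -- common neighbours t i of c (i-1) and c (i+1)
  have key2 : ∀ i : Fin 5, ∃ t ∈ I, G.Adj (c (4 + i)) t ∧ G.Adj (c (1 + i)) t := by
    intro i
    refine key (fun j => c (j + i)) (hc.rot i) ?_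
    intro u hu
    rcases hF u hu with h | ⟨j, h⟩
    · exact Or.inl h
    · right
      refine ⟨j - i, ?_⟩
      simp [h]
  choose t htI ht4 ht1 using key2
  -- t i is assigned to class i + 1
  have tinj : Function.Injective t := by
    intro i j hij
    by_contra hne
    have hi4 := ht4 i
    have hi1 := ht1 i
    rw [hij] at hi4 hi1
    have hj4 := ht4 j
    have hj1 := ht1 j
    have bad : ∀ m : Fin 5, G.Adj (c m) (t j) → G.Adj (c (m + 1)) (t j) → False :=
      fun m h1 h2 => S.tf _ _ _ (hc.adj m) h2 h1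
    clear hij key htI ht4 ht1
    fin_cases i <;> fin_cases j <;> simp at hne
    all_goals
      simp at hi4 hi1 hj4 hj1
      first
        | exact bad 0 (by assumption) (by assumption)
        | exact bad 1 (by assumption) (by assumption)
        | exact bad 2 (by assumption) (by assumption)
        | exact bad 3 (by assumption) (by assumption)
        | exact bad 4 (by assumption) (by assumption)
  -- the assignment
  let g : Fin 5 ⊕ Fin 5 → V := Sum.elim c t
  have ginj : Function.Injective g := by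
    intro a b hab
    rcases a with a | a <;> rcases b with b | b <;> simp only [g, Sum.elim_inl, Sum.elim_inr] at hab
    · rw [hc.inj hab]
    · exact absurd (htI b) (hab ▸ hc.out a)
    · exact absurd (htI a) (hab ▸ hc.out b)
    · rw [tinj hab]
  let p : Fin 5 ⊕ Fin 5 → Fin 5 := Sum.elim (fun i => i) (fun i => i + 1)
  refine ⟨Function.extend g p (fun _ => 0), ?_⟩
  have fc : ∀ i, Function.extend g p (fun _ => 0) (c i) = i := by
    intro i
    have := ginj.extend_apply p (fun _ => 0) (Sum.inl i)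
    simpa [g, p] using this
  have ft : ∀ i, Function.extend g p (fun _ => 0) (t i) = i + 1 := by
    intro i
    have := ginj.extend_apply p (fun _ => 0) (Sum.inr i)
    simpa [g, p] using this
  intro i j hij
  have hcs : j = i + 1 ∨ i = j + 1 ∨ j = i + 2 ∨ i = j + 2 := by
    revert hij; revert i j; decide
  rcases hcs with rfl | rfl | rfl | rfl
  · exact ⟨c i, c (i + 1), hc.adj i, fc _, fc _⟩
  · exact ⟨c (j + 1), c j, (hc.adj j).symm, fc _, fc _⟩
  · refine ⟨c i, t (i + 1), ?_, fc _, ?_⟩
    · have := ht4 (i + 1)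
      rwa [show 4 + (i + 1) = i by
        rw [add_comm, add_assoc, show (1 : Fin 5) + 4 = 0 by decide, add_zero]] at this
    · rw [ft, add_assoc]; rfl
  · refine ⟨t (j + 1), c j, ?_, ?_, fc _⟩
    · have := ht4 (j + 1)
      rw [show 4 + (j + 1) = j by
        rw [add_comm, add_assoc, show (1 : Fin 5) + 4 = 0 by decide, add_zero]] at this
      exact this.symm
    · rw [ft, add_assoc]; rfl

end H64R3.Psi
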