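import Pool.Agent.H64R3.Psi5

set_option autoImplicit false

namespace H64R3.Psi

theorem exists_setup {V : Type} [Finite V] (G : SimpleGraph V)
    (tf : ∀ a b c, G.Adj a b → G.Adj b c → ¬ G.Adj a c) (hcol : ¬ G.Colorable 3) :
    ∃ (I : Set V) (v : V), Setup G I v := by
  classical
  -- an edge exists
  have hedge : ∃ v u, G.Adj v u := by
    by_contra h
    push Not at h
    apply hcol
    refine ⟨SimpleGraph.Coloring.mk (fun _ => 0) ?_⟩
    intro a b hab
    exact absurd hab (h a b)
  obtain ⟨v, u, hvu⟩ := hedge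
  let P : Set V → Prop := fun I => (∀ a ∈ I, ∀ b ∈ I, ¬ G.Adj a b) ∧ (∀ u, G.Adj v u → u ∈ I)
  have hP : P {x | G.Adj v x} := by
    refine ⟨?_, fun u hu => hu⟩
    intro a ha b hb hab
    exact tf _ _ _ ha hab hb
  obtain ⟨I, -, hmax⟩ := Finite.exists_le_maximal hP
  obtain ⟨⟨hind, hnv⟩, hmax⟩ := hmax
  have hvI : v ∉ I := fun h => hind v h u (hnv u hvu) hvu
  refine ⟨I, v, tf, hind, hvI, hnv, ?_⟩
  intro x hx
  by_contra hno
  push Not at hno
  have hP2 : P (insert x I) := by
    refine ⟨?_, fun u hu => Or.inr (hnv u hu)⟩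
    intro a ha b hb hab
    rcases ha with rfl | ha <;> rcases hb with rfl | hb
    · exact G.loopless.irrefl _ hab
    · exact hno b hb hab
    · exact hno a ha hab.symm
    · exact hind a ha b hb hab
  have := hmax hP2 (Set.subset_insert x I)
  exact hx (this (Set.mem_insert x I))

/-- Every finite triangle-free graph that is not 3-colourable has a complete partition into
five classes. -/
theorem main {V : Type} [Finite V] (G : SimpleGraph V)
    (tf : ∀ a b c, G.Adj a b → G.Adj b c → ¬ G.Adj a c) (hcol : ¬ G.Colorable 3) : Comp5 G := by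
  classical
  obtain ⟨I, v, S⟩ := exists_setup G tf hcol
  by_contra hC
  -- the graph outside I
  let F : SimpleGraph V :=
    { Adj := fun a b => G.Adj a b ∧ a ∉ I ∧ b ∉ I
      symm := ⟨fun a b h => ⟨h.1.symm, h.2.2, h.2.1⟩⟩
      loopless := ⟨fun a h => G.loopless.irrefl a h.1⟩ }
  have hF2 : ¬ F.Colorable 2 := by
    rintro ⟨col⟩
    apply hcol
    refine ⟨SimpleGraph.Coloring.mk (fun u => if u ∈ I then 2 else (col u).castSucc) ?_⟩
    intro a b hab
    by_cases ha : a ∈ I <;> by_cases hb : b ∈ I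
    · exact absurd hab (S.ind a ha b hb)
    · simp only [ha, hb, if_true, if_false]
      exact (Fin.castSucc_lt_last (col b)).ne'
    · simp only [ha, hb, if_true, if_false]
      exact (Fin.castSucc_lt_last (col a)).ne
    · simp only [ha, hb, if_false]
      have : col a ≠ col b := col.valid (v := a) (w := b) ⟨hab, ha, hb⟩
      intro h
      exact this (Fin.castSucc_injective _ h)
  obtain ⟨k, w, hk, hw0, hw, hinj⟩ := oddCycle F hF2
    (fun a b c h1 h2 h3 => tf a b c h1.1 h2.1 h3.1)
  have ht : ∀ u : V, ∃ t : V, u ∉ I → t ∈ I ∧ G.Adj u t := by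
    intro u
    by_cases hu : u ∈ I
    · exact ⟨u, fun h => absurd hu h⟩
    · obtain ⟨t, h1, h2⟩ := S.dom u hu
      exact ⟨t, fun _ => ⟨h1, h2⟩⟩
  choose t ht using ht
  have hwI : ∀ i, i < k → w i ∉ I := fun i hi => (hw i hi).2.1
  rcases hk with rfl | hk
  swap
  · exact hC (long_case S t ht k hk w hw0 hwI (fun i hi => (hw i hi).1) hinj)
  -- the five-cycle
  have hc : C5 G I (fun i : Fin 5 => w i.val) := by
    refine ⟨?_, fun i => hwI _ i.isLt, ?_⟩
    · intro i j hij
      rcases lt_trichotomy i.val j.val with h | h | h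
      · exact absurd hij (hinj _ _ h j.isLt)
      · exact Fin.ext h
      · exact absurd hij.symm (hinj _ _ h i.isLt)
    · intro i
      have h1 := (hw i.val i.isLt).1
      fin_cases i
      · exact h1
      · exact h1
      · exact h1
      · exact h1
      · simpa [hw0] using h1
  generalize (fun i : Fin 5 => w i.val) = c at hc
  by_cases hex : ∃ e, e ∉ I ∧ e ≠ v ∧ ∀ i, c i ≠ e
  swap
  · push Not at hex
    refine hC (no_extra S hcol c hc ?_)
    intro u hu
    by_cases huv : u = v
    · exact Or.inl huv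
    · obtain ⟨i, hi⟩ := hex u hu huv
      exact Or.inr ⟨i, hi.symm⟩
  obtain ⟨e, heI, hev, hec⟩ := hex
  obtain ⟨j, j1, j2, j3⟩ := five_exc S hC c hc e heI hev hec (fun i => t (c i))
    (fun i => ht _ (hc.out i)) (t e) (ht e heI).1 (ht e heI).2
  -- rotate
  have hc' := hc.rot j
  have hec' : ∀ i, c (i + j) ≠ e := fun i => hec _
  set c' : Fin 5 → V := fun i => c (i + j) with hc'def
  set s : Fin 5 → V := fun i => t (c' i) with hsdef
  have hs : ∀ i, s i ∈ I ∧ G.Adj (c' i) (s i) := fun i => ht _ (hc'.out i)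
  have s02 : s 0 = s 2 := by
    simp only [hsdef, hc'def]
    rw [zero_add, add_comm 2 j]; exact j1
  have s13 : s 1 = s 3 := by
    simp only [hsdef, hc'def]
    rw [add_comm 1 j, add_comm 3 j]; exact j2
  have s4 : s 4 = t e := by
    simp only [hsdef, hc'def]
    rw [add_comm 4 j]; exact j3
  have es4 : G.Adj e (s 4) := by rw [s4]; exact (ht e heI).2
  obtain ⟨hT, hTe⟩ := five_single S hC c' hc' s hs e heI hev hec' es4 s02 s13
  have prop : ∀ i, s i ≠ s (i + 1) := by
    intro i h
    have h1 := (hs i).2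
    have h2 := (hs (i + 1)).2
    rw [h] at h1
    exact S.tf _ _ _ (hc'.adj i) h2 h1
  have p01 : s 0 ≠ s 1 := prop 0
  have p34 : s 3 ≠ s 4 := prop 3
  have p40 : s 4 ≠ s 0 := prop 4
  by_cases hex2 : ∃ e', e' ∉ I ∧ e' ≠ v ∧ (∀ i, c' i ≠ e') ∧ e' ≠ e
  · obtain ⟨e', he'I, he'v, he'c, hee⟩ := hex2
    refine hC (two_extra S c' hc' e e' heI hev hec' he'I he'v he'c hee.symm s hs es4 ?_
      p40.symm ?_ ?_)
    · have := (ht e' he'I)
      rw [← hTe e' he'I he'v he'c _ this.1 this.2]
      exact this.2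
    · rw [s13]; exact p34
    · rw [← s02]; exact p40.symm
  · push Not at hex2
    refine hcol (one_extra S c' hc' e heI hev hec' ?_ s hs s02 s13 hT (hTe e heI hev hec')
      p01 p40.symm)
    intro u hu
    by_cases huv : u = v
    · exact Or.inl huv
    · by_cases hui : ∃ i, u = c' i
      · exact Or.inr (Or.inr hui)
      · push Not at hui
        exact Or.inr (Or.inl (hex2 u hu huv (fun i h => hui i h.symm)))

end H64R3.Psi
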